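import Pool.Agent.H174.GP.StE
import Pool.Agent.H174.GP.StA
import Pool.Agent.H174.GP.StP

/-!
# Project GP (helper174): change of variables in the lower bound (helper124)
-/

set_option autoImplicit false

open MeasureTheory ProbabilityTheory Finset Filter Topology

namespace Pool.Agent.H174.GP

namespace DLa

/-- pairs of a sequence of integers and a sequence of natural numbers -/
abbrev XX : Type := (ℕ → ℤ) × (ℕ → ℕ)

abbrev WW : Type := (ℕ → ℝ) × (ℕ → ℝ)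

noncomputable def ph (σ : ℝ) (p : WW) : XX := ((fun j => geo σ p.1 j), (fun j => gs (2 * σ) p.2 j))

noncomputable def ps (σ : ℝ) (p : WW) : XX :=
  ((fun j => (gs σ p.1 j : ℤ) - (gs σ p.2 j : ℤ)), (fun j => min (gs σ p.1 j) (gs σ p.2 j)))

def eD (x : XX) (l : ℕ) : ℕ := x.2 l + (max 0 (-(x.1 l))).toNat

def fD (x : XX) (l : ℕ) : ℕ := x.2 l + (max 0 (x.1 l)).toNat

def G1 (d d' n : ℕ) : Set (XX × XX) :=
  {r | (∀ k ∈ Finset.Icc 1 d, (k : ℝ) * (((d' : ℝ) - d) + ∑ l ∈ Finset.Ioc d d', (eD r.1 l : ℝ))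
        ≤ Cs (fun j => (r.1.1 j : ℝ)) d k) ∧
    (∀ k ∈ Finset.Icc 1 d, 0 ≤ Cs (fun j => (r.2.1 j : ℝ)) d k) ∧
    (∑ j ∈ Finset.Icc 1 d, (j : ℤ) * r.1.1 j) - (∑ j ∈ Finset.Icc 1 d, (j : ℤ) * r.2.1 j)
      = (d' : ℤ) ^ 2 - (d : ℤ) ^ 2
        + ∑ l ∈ Finset.Ioc d d', (l : ℤ) * ((eD r.1 l : ℤ) + (fD r.2 l : ℤ)) ∧
    2 * (∑ j ∈ Finset.Icc 1 d, (j : ℤ) * ((r.1.2 j : ℤ) + (r.2.2 j : ℤ)))
      = 2 * (n : ℤ) - (d : ℤ) ^ 2 - (d' : ℤ) ^ 2 - (∑ j ∈ Finset.Icc 1 d, (j : ℤ) * |r.1.1 j|)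
        - (∑ j ∈ Finset.Icc 1 d, (j : ℤ) * |r.2.1 j|)
        - ∑ l ∈ Finset.Ioc d d', (l : ℤ) * ((eD r.1 l : ℤ) + (fD r.2 l : ℤ))}

theorem E1_eq (d d' n : ℕ) (σ : ℝ) : E1 d d' n σ = {q | (ph σ q.1, ph σ q.2) ∈ G1 d d' n} := rfl

/-! ### measurability -/

theorem meas_Tq (a : ℝ) : Measurable (Tq a) := by
  unfold Tq
  refine Measurable.ite (measurableSet_le measurable_const measurable_id) ?_ ?_
  · exact Int.measurable_floor.comp (by fun_prop)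
  · exact (Int.measurable_floor.comp (by fun_prop)).neg

theorem meas_geo (σ : ℝ) (j : ℕ) : Measurable (fun ω : ℕ → ℝ => geo σ ω j) :=
  (meas_Tq _).comp (measurable_pi_apply j)

theorem meas_gs (σ : ℝ) (j : ℕ) : Measurable (fun ω : ℕ → ℝ => gs σ ω j) := by
  unfold gs
  refine Nat.measurable_floor.comp ?_
  exact ((measurable_pi_apply j).abs).div_const _

theorem meas_ph (σ : ℝ) : Measurable (ph σ) := by
  refine Measurable.prodMk ?_ ?_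
  · exact measurable_pi_lambda _ fun j => (meas_geo σ j).comp measurable_fst
  · exact measurable_pi_lambda _ fun j => (meas_gs (2 * σ) j).comp measurable_snd

theorem meas_ps (σ : ℝ) : Measurable (ps σ) := by
  refine Measurable.prodMk ?_ ?_
  · refine measurable_pi_lambda _ fun j => ?_
    have h1 : Measurable (fun p : WW => (gs σ p.1 j, gs σ p.2 j)) :=
      ((meas_gs σ j).comp measurable_fst).prodMk ((meas_gs σ j).comp measurable_snd)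
    exact (measurable_of_countable (fun p : ℕ × ℕ => ((p.1 : ℤ) - (p.2 : ℤ)))).comp h1
  · refine measurable_pi_lambda _ fun j => ?_
    have h1 : Measurable (fun p : WW => (gs σ p.1 j, gs σ p.2 j)) :=
      ((meas_gs σ j).comp measurable_fst).prodMk ((meas_gs σ j).comp measurable_snd)
    exact (measurable_of_countable (fun p : ℕ × ℕ => min p.1 p.2)).comp h1

theorem meas_x (j : ℕ) : Measurable (fun x : XX => x.1 j) :=
  (measurable_pi_apply j).comp measurable_fst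

theorem meas_g (j : ℕ) : Measurable (fun x : XX => x.2 j) :=
  (measurable_pi_apply j).comp measurable_snd

theorem meas_eD (l : ℕ) : Measurable (fun x : XX => eD x l) := by
  have h1 : Measurable (fun x : XX => (x.1 l, x.2 l)) := (meas_x l).prodMk (meas_g l)
  exact (measurable_of_countable (fun p : ℤ × ℕ => p.2 + (max 0 (-p.1)).toNat)).comp h1

theorem meas_fD (l : ℕ) : Measurable (fun x : XX => fD x l) := by
  have h1 : Measurable (fun x : XX => (x.1 l, x.2 l)) := (meas_x l).prodMk (meas_g l)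
  exact (measurable_of_countable (fun p : ℤ × ℕ => p.2 + (max 0 p.1).toNat)).comp h1

theorem meas_castN : Measurable (fun n : ℕ => (n : ℝ)) := measurable_of_countable _
theorem meas_castZ : Measurable (fun n : ℤ => (n : ℝ)) := measurable_of_countable _
theorem meas_castNZ : Measurable (fun n : ℕ => (n : ℤ)) := measurable_of_countable _
theorem meas_abs : Measurable (fun n : ℤ => |n|) := measurable_of_countable _

theorem meas_G1 (d d' n : ℕ) : MeasurableSet (G1 d d' n) := by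
  have hs : ∀ (r : XX × XX → ℤ), Measurable r → ∀ c : ℤ, Measurable (fun q => c * r q) := by
    intro r hr c
    exact (measurable_of_countable (fun z : ℤ => c * z)).comp hr
  have hx1 : ∀ j, Measurable (fun r : XX × XX => r.1.1 j) := fun j => (meas_x j).comp measurable_fst
  have hx2 : ∀ j, Measurable (fun r : XX × XX => r.2.1 j) := fun j => (meas_x j).comp measurable_snd
  have hg1 : ∀ j, Measurable (fun r : XX × XX => r.1.2 j) := fun j => (meas_g j).comp measurable_fst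
  have hg2 : ∀ j, Measurable (fun r : XX × XX => r.2.2 j) := fun j => (meas_g j).comp measurable_snd
  have he : ∀ j, Measurable (fun r : XX × XX => eD r.1 j) := fun j => (meas_eD j).comp measurable_fst
  have hf : ∀ j, Measurable (fun r : XX × XX => fD r.2 j) := fun j => (meas_fD j).comp measurable_snd
  have hef : Measurable (fun r : XX × XX =>
      ∑ l ∈ Finset.Ioc d d', (l : ℤ) * ((eD r.1 l : ℤ) + (fD r.2 l : ℤ))) := by
    refine Finset.measurable_sum _ fun l _ => hs _ ?_ _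
    exact (meas_castNZ.comp (he l)).add (meas_castNZ.comp (hf l))
  have h1 : MeasurableSet {r : XX × XX | ∀ k ∈ Finset.Icc 1 d,
      (k : ℝ) * (((d' : ℝ) - d) + ∑ l ∈ Finset.Ioc d d', (eD r.1 l : ℝ))
        ≤ Cs (fun j => (r.1.1 j : ℝ)) d k} := by
    have e : {r : XX × XX | ∀ k ∈ Finset.Icc 1 d,
      (k : ℝ) * (((d' : ℝ) - d) + ∑ l ∈ Finset.Ioc d d', (eD r.1 l : ℝ))
        ≤ Cs (fun j => (r.1.1 j : ℝ)) d k} = ⋂ k ∈ Finset.Icc 1 d, {r : XX × XX |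
      (k : ℝ) * (((d' : ℝ) - d) + ∑ l ∈ Finset.Ioc d d', (eD r.1 l : ℝ))
        ≤ Cs (fun j => (r.1.1 j : ℝ)) d k} := by
      ext r; simp
    rw [e]
    refine Finset.measurableSet_biInter _ fun k _ => ?_
    refine measurableSet_le ?_ ?_
    · refine Measurable.const_mul (Measurable.const_add ?_ _) _
      exact Finset.measurable_sum _ fun l _ => meas_castN.comp (he l)
    · unfold Cs
      refine Finset.measurable_sum _ fun j _ => Measurable.const_mul ?_ _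
      exact meas_castZ.comp (hx1 j)
  have h2 : MeasurableSet {r : XX × XX | ∀ k ∈ Finset.Icc 1 d,
      0 ≤ Cs (fun j => (r.2.1 j : ℝ)) d k} := by
    have e : {r : XX × XX | ∀ k ∈ Finset.Icc 1 d, 0 ≤ Cs (fun j => (r.2.1 j : ℝ)) d k} =
        ⋂ k ∈ Finset.Icc 1 d, {r : XX × XX | 0 ≤ Cs (fun j => (r.2.1 j : ℝ)) d k} := by
      ext r; simp
    rw [e]
    refine Finset.measurableSet_biInter _ fun k _ => ?_
    refine measurableSet_le measurable_const ?_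
    unfold Cs
    refine Finset.measurable_sum _ fun j _ => Measurable.const_mul ?_ _
    exact meas_castZ.comp (hx2 j)
  have h3 : MeasurableSet {r : XX × XX | (∑ j ∈ Finset.Icc 1 d, (j : ℤ) * r.1.1 j) -
      (∑ j ∈ Finset.Icc 1 d, (j : ℤ) * r.2.1 j) = (d' : ℤ) ^ 2 - (d : ℤ) ^ 2
        + ∑ l ∈ Finset.Ioc d d', (l : ℤ) * ((eD r.1 l : ℤ) + (fD r.2 l : ℤ))} := by
    refine measurableSet_eq_fun ?_ (measurable_const.add hef)
    exact (Finset.measurable_sum _ fun j _ => hs _ (hx1 j) _).sub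
      (Finset.measurable_sum _ fun j _ => hs _ (hx2 j) _)
  have h4 : MeasurableSet {r : XX × XX |
      2 * (∑ j ∈ Finset.Icc 1 d, (j : ℤ) * ((r.1.2 j : ℤ) + (r.2.2 j : ℤ)))
      = 2 * (n : ℤ) - (d : ℤ) ^ 2 - (d' : ℤ) ^ 2 - (∑ j ∈ Finset.Icc 1 d, (j : ℤ) * |r.1.1 j|)
        - (∑ j ∈ Finset.Icc 1 d, (j : ℤ) * |r.2.1 j|)
        - ∑ l ∈ Finset.Ioc d d', (l : ℤ) * ((eD r.1 l : ℤ) + (fD r.2 l : ℤ))} := by
    refine measurableSet_eq_fun (hs _ ?_ 2) (((measurable_const.sub ?_).sub ?_).sub hef)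
    · refine Finset.measurable_sum _ fun j _ => hs _ ?_ _
      exact (meas_castNZ.comp (hg1 j)).add (meas_castNZ.comp (hg2 j))
    · exact Finset.measurable_sum _ fun j _ => hs _ (meas_abs.comp (hx1 j)) _
    · exact Finset.measurable_sum _ fun j _ => hs _ (meas_abs.comp (hx2 j)) _
  exact h1.inter (h2.inter (h3.inter h4))

/-! ### dependence on finitely many coordinates -/

theorem eD_congr {x x' : XX} {j : ℕ} (h : x.1 j = x'.1 j ∧ x.2 j = x'.2 j) : eD x j = eD x' j := by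
  unfold eD; rw [h.1, h.2]

theorem fD_congr {x x' : XX} {j : ℕ} (h : x.1 j = x'.1 j ∧ x.2 j = x'.2 j) : fD x j = fD x' j := by
  unfold fD; rw [h.1, h.2]

theorem G1_congr {d d' n : ℕ} (hd : d ≤ d') {x x' y y' : XX}
    (hx : ∀ j ∈ Finset.Icc 1 d', x.1 j = x'.1 j ∧ x.2 j = x'.2 j)
    (hy : ∀ j ∈ Finset.Icc 1 d', y.1 j = y'.1 j ∧ y.2 j = y'.2 j)
    (h : (x, y) ∈ G1 d d' n) : (x', y') ∈ G1 d d' n := by
  have m1 : ∀ j ∈ Finset.Icc 1 d, j ∈ Finset.Icc 1 d' := by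
    intro j hj
    rw [Finset.mem_Icc] at hj ⊢
    omega
  have m2 : ∀ j ∈ Finset.Ioc d d', j ∈ Finset.Icc 1 d' := by
    intro j hj
    rw [Finset.mem_Ioc] at hj
    rw [Finset.mem_Icc]
    omega
  have hef : ∑ l ∈ Finset.Ioc d d', (l : ℤ) * ((eD x' l : ℤ) + (fD y' l : ℤ)) =
      ∑ l ∈ Finset.Ioc d d', (l : ℤ) * ((eD x l : ℤ) + (fD y l : ℤ)) := by
    refine Finset.sum_congr rfl fun l hl => ?_
    rw [eD_congr (hx l (m2 l hl)), fD_congr (hy l (m2 l hl))]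
  obtain ⟨h1, h2, h3, h4⟩ := h
  refine ⟨?_, ?_, ?_, ?_⟩
  · intro k hk
    have h5 := h1 k hk
    have e1 : ∑ l ∈ Finset.Ioc d d', (eD x' l : ℝ) = ∑ l ∈ Finset.Ioc d d', (eD x l : ℝ) :=
      Finset.sum_congr rfl fun l hl => by rw [eD_congr (hx l (m2 l hl))]
    have e2 : Cs (fun j => (x'.1 j : ℝ)) d k = Cs (fun j => (x.1 j : ℝ)) d k :=
      Finset.sum_congr rfl fun j hj => by simp only [(hx j (m1 j hj)).1]
    show (k : ℝ) * (((d' : ℝ) - d) + ∑ l ∈ Finset.Ioc d d', (eD x' l : ℝ)) ≤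
      Cs (fun j => (x'.1 j : ℝ)) d k
    rw [e1, e2]
    exact h5
  · intro k hk
    have h5 := h2 k hk
    have e2 : Cs (fun j => (y'.1 j : ℝ)) d k = Cs (fun j => (y.1 j : ℝ)) d k :=
      Finset.sum_congr rfl fun j hj => by simp only [(hy j (m1 j hj)).1]
    show 0 ≤ Cs (fun j => (y'.1 j : ℝ)) d k
    rw [e2]
    exact h5
  · show (∑ j ∈ Finset.Icc 1 d, (j : ℤ) * x'.1 j) - (∑ j ∈ Finset.Icc 1 d, (j : ℤ) * y'.1 j)
      = (d' : ℤ) ^ 2 - (d : ℤ) ^ 2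
        + ∑ l ∈ Finset.Ioc d d', (l : ℤ) * ((eD x' l : ℤ) + (fD y' l : ℤ))
    have e1 : ∑ j ∈ Finset.Icc 1 d, (j : ℤ) * x'.1 j = ∑ j ∈ Finset.Icc 1 d, (j : ℤ) * x.1 j :=
      Finset.sum_congr rfl fun j hj => by rw [(hx j (m1 j hj)).1]
    have e2 : ∑ j ∈ Finset.Icc 1 d, (j : ℤ) * y'.1 j = ∑ j ∈ Finset.Icc 1 d, (j : ℤ) * y.1 j :=
      Finset.sum_congr rfl fun j hj => by rw [(hy j (m1 j hj)).1]
    rw [hef, e1, e2]
    exact h3
  · show 2 * (∑ j ∈ Finset.Icc 1 d, (j : ℤ) * ((x'.2 j : ℤ) + (y'.2 j : ℤ)))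
      = 2 * (n : ℤ) - (d : ℤ) ^ 2 - (d' : ℤ) ^ 2 - (∑ j ∈ Finset.Icc 1 d, (j : ℤ) * |x'.1 j|)
        - (∑ j ∈ Finset.Icc 1 d, (j : ℤ) * |y'.1 j|)
        - ∑ l ∈ Finset.Ioc d d', (l : ℤ) * ((eD x' l : ℤ) + (fD y' l : ℤ))
    have e1 : ∑ j ∈ Finset.Icc 1 d, (j : ℤ) * |x'.1 j| = ∑ j ∈ Finset.Icc 1 d, (j : ℤ) * |x.1 j| :=
      Finset.sum_congr rfl fun j hj => by rw [(hx j (m1 j hj)).1]
    have e2 : ∑ j ∈ Finset.Icc 1 d, (j : ℤ) * |y'.1 j| = ∑ j ∈ Finset.Icc 1 d, (j : ℤ) * |y.1 j| :=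
      Finset.sum_congr rfl fun j hj => by rw [(hy j (m1 j hj)).1]
    have e3 : ∑ j ∈ Finset.Icc 1 d, (j : ℤ) * ((x'.2 j : ℤ) + (y'.2 j : ℤ)) =
        ∑ j ∈ Finset.Icc 1 d, (j : ℤ) * ((x.2 j : ℤ) + (y.2 j : ℤ)) :=
      Finset.sum_congr rfl fun j hj => by rw [(hx j (m1 j hj)).2, (hy j (m1 j hj)).2]
    rw [hef, e1, e2, e3]
    exact h4

/-! ### change of variables -/

theorem P2_eq (h1 : S_Xg) {N : ℕ} {σ : ℝ} (hσ : 0 < σ) {F : Set XX} (hF : DepZ N F) :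
    (PP.prod PP) {p | ph σ p ∈ F} = (PP.prod PP) {p | ps σ p ∈ F} := by
  have h := h1 N σ F hσ hF
  rw [← ENNReal.toReal_eq_toReal_iff' (measure_ne_top _ _) (measure_ne_top _ _)]
  exact h.symm

theorem step1 (h1 : S_Xg) {N : ℕ} {σ : ℝ} (hσ : 0 < σ) {G : Set (XX × XX)} (hG : MeasurableSet G)
    (hd : ∀ y, DepZ N {x | (x, y) ∈ G}) {b : WW → XX} (hb : Measurable b) :
    Q4 {q | (ph σ q.1, b q.2) ∈ G} = Q4 {q | (ps σ q.1, b q.2) ∈ G} := by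
  have m1 : MeasurableSet {q : WW × WW | (ph σ q.1, b q.2) ∈ G} :=
    (((meas_ph σ).comp measurable_fst).prodMk (hb.comp measurable_snd)) hG
  have m2 : MeasurableSet {q : WW × WW | (ps σ q.1, b q.2) ∈ G} :=
    (((meas_ps σ).comp measurable_fst).prodMk (hb.comp measurable_snd)) hG
  unfold Q4
  rw [Measure.prod_apply_symm m1, Measure.prod_apply_symm m2]
  refine lintegral_congr fun y => ?_
  exact P2_eq h1 hσ (hd (b y))

theorem step2 (h1 : S_Xg) {N : ℕ} {σ : ℝ} (hσ : 0 < σ) {G : Set (XX × XX)} (hG : MeasurableSet G)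
    (hd : ∀ x, DepZ N {y | (x, y) ∈ G}) {a : WW → XX} (ha : Measurable a) :
    Q4 {q | (a q.1, ph σ q.2) ∈ G} = Q4 {q | (a q.1, ps σ q.2) ∈ G} := by
  have m1 : MeasurableSet {q : WW × WW | (a q.1, ph σ q.2) ∈ G} :=
    ((ha.comp measurable_fst).prodMk ((meas_ph σ).comp measurable_snd)) hG
  have m2 : MeasurableSet {q : WW × WW | (a q.1, ps σ q.2) ∈ G} :=
    ((ha.comp measurable_fst).prodMk ((meas_ps σ).comp measurable_snd)) hG
  unfold Q4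
  rw [Measure.prod_apply m1, Measure.prod_apply m2]
  refine lintegral_congr fun x => ?_
  exact P2_eq h1 hσ (hd (a x))

theorem step3 {σ : ℝ} {G : Set (XX × XX)} (hG : MeasurableSet G) {a : WW → XX}
    (ha : Measurable a) :
    Q4 {q | (a q.1, ps σ q.2) ∈ G} = Q4 {q | (a q.1, ps σ q.2.swap) ∈ G} := by
  have m1 : MeasurableSet {q : WW × WW | (a q.1, ps σ q.2) ∈ G} :=
    ((ha.comp measurable_fst).prodMk ((meas_ps σ).comp measurable_snd)) hG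
  have m2 : MeasurableSet {q : WW × WW | (a q.1, ps σ q.2.swap) ∈ G} :=
    ((ha.comp measurable_fst).prodMk
      ((meas_ps σ).comp (measurable_swap.comp measurable_snd))) hG
  unfold Q4
  rw [Measure.prod_apply m1, Measure.prod_apply m2]
  refine lintegral_congr fun x => ?_
  have m3 : MeasurableSet {y : WW | (a x, ps σ y) ∈ G} :=
    (measurable_const.prodMk (meas_ps σ)) hG
  have h := (Measure.measurePreserving_swap (μ := PP) (ν := PP)).measure_preimage m3.nullMeasurableSet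
  exact h.symm

/-! ### the deterministic part -/

theorem sum_Fin {M : Type*} [AddCommMonoid M] (d : ℕ) (f : ℕ → M) :
    ∑ i : Fin d, f ((i : ℕ) + 1) = ∑ j ∈ Finset.Icc 1 d, f j := by
  rw [Fin.sum_univ_eq_sum_range (fun i => f (i + 1)) d]
  rw [Finset.range_eq_Ico, Finset.sum_Ico_add' f 0 d 1]
  rfl

theorem Icc_split {M : Type*} [AddCommMonoid M] {d d' : ℕ} (hd : d ≤ d') (f : ℕ → M) :
    ∑ j ∈ Finset.Icc 1 d', f j = ∑ j ∈ Finset.Icc 1 d, f j + ∑ j ∈ Finset.Ioc d d', f j := by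
  have h : Finset.Icc 1 d' = Finset.Icc 1 d ∪ Finset.Ioc d d' := by
    ext j
    simp only [Finset.mem_Icc, Finset.mem_union, Finset.mem_Ioc]
    omega
  rw [h, Finset.sum_union]
  rw [Finset.disjoint_left]
  intro j hj hj'
  rw [Finset.mem_Icc] at hj
  rw [Finset.mem_Ioc] at hj'
  omega

theorem det (h2 : S_domsuf) (h3 : S_toPsum) {d d' n : ℕ} {σ : ℝ} (hd : d ≤ d')
    {q : WW × WW} (hq : (ps σ q.1, ps σ q.2.swap) ∈ G1 d d' n) :
    d ^ 2 + ∑ i : Fin d, ((i : ℕ) + 1) * (gF d σ q.1.1 i + gF d σ q.2.1 i) = n ∧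
      d' ^ 2 + ∑ i : Fin d', ((i : ℕ) + 1) * (gF d' σ q.1.2 i + gF d' σ q.2.2 i) = n ∧
      DomM (toP d' (gF d' σ q.1.2) (gF d' σ q.2.2)) (toP d (gF d σ q.1.1) (gF d σ q.2.1)) := by
  obtain ⟨⟨w1, w2⟩, ⟨w3, w4⟩⟩ := q
  set g : ℕ → ℕ := gs σ w1 with hg
  set g' : ℕ → ℕ := gs σ w2 with hg'
  set h : ℕ → ℕ := gs σ w3 with hh
  set h' : ℕ → ℕ := gs σ w4 with hh'
  have heD : ∀ l, (eD (ps σ (w1, w2)) l : ℤ) = g' l := by
    intro l
    show ((min (g l) (g' l) + (max 0 (-((g l : ℤ) - (g' l : ℤ)))).toNat : ℕ) : ℤ) = g' l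
    have : min (g l) (g' l) + (max 0 (-((g l : ℤ) - (g' l : ℤ)))).toNat = g' l := by omega
    rw [this]
  have hfD : ∀ l, (fD (ps σ (w4, w3)) l : ℤ) = h' l := by
    intro l
    show ((min (h' l) (h l) + (max 0 ((h' l : ℤ) - (h l : ℤ))).toNat : ℕ) : ℤ) = h' l
    have : min (h' l) (h l) + (max 0 ((h' l : ℤ) - (h l : ℤ))).toNat = h' l := by omega
    rw [this]
  obtain ⟨c1, c2, c3, c4⟩ := hq
  have c3' : (∑ j ∈ Finset.Icc 1 d, (j : ℤ) * ((g j : ℤ) - (g' j : ℤ))) -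
      (∑ j ∈ Finset.Icc 1 d, (j : ℤ) * ((h' j : ℤ) - (h j : ℤ)))
      = (d' : ℤ) ^ 2 - (d : ℤ) ^ 2
        + ∑ l ∈ Finset.Ioc d d', (l : ℤ) * ((g' l : ℤ) + (h' l : ℤ)) := by
    have e : ∑ l ∈ Finset.Ioc d d', (l : ℤ) * ((eD (ps σ (w1, w2)) l : ℤ) +
        (fD (ps σ (w4, w3)) l : ℤ)) = ∑ l ∈ Finset.Ioc d d', (l : ℤ) * ((g' l : ℤ) + (h' l : ℤ)) :=
      Finset.sum_congr rfl fun l _ => by rw [heD, hfD]
    rw [← e]
    exact c3
  have c4' : 2 * (∑ j ∈ Finset.Icc 1 d, (j : ℤ) * (((min (g j) (g' j) : ℕ) : ℤ) +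
      ((min (h' j) (h j) : ℕ) : ℤ)))
      = 2 * (n : ℤ) - (d : ℤ) ^ 2 - (d' : ℤ) ^ 2 -
        (∑ j ∈ Finset.Icc 1 d, (j : ℤ) * |(g j : ℤ) - (g' j : ℤ)|)
        - (∑ j ∈ Finset.Icc 1 d, (j : ℤ) * |(h' j : ℤ) - (h j : ℤ)|)
        - ∑ l ∈ Finset.Ioc d d', (l : ℤ) * ((g' l : ℤ) + (h' l : ℤ)) := by
    have e : ∑ l ∈ Finset.Ioc d d', (l : ℤ) * ((eD (ps σ (w1, w2)) l : ℤ) +
        (fD (ps σ (w4, w3)) l : ℤ)) = ∑ l ∈ Finset.Ioc d d', (l : ℤ) * ((g' l : ℤ) + (h' l : ℤ)) :=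
      Finset.sum_congr rfl fun l _ => by rw [heD, hfD]
    rw [← e]
    exact c4
  -- the two sizes
  have s1 : (∑ j ∈ Finset.Icc 1 d, (j : ℤ) * ((g j : ℤ) - (g' j : ℤ))) -
      (∑ j ∈ Finset.Icc 1 d, (j : ℤ) * ((h' j : ℤ) - (h j : ℤ))) =
      (∑ j ∈ Finset.Icc 1 d, (j : ℤ) * ((g j : ℤ) + (h j : ℤ))) -
      (∑ j ∈ Finset.Icc 1 d, (j : ℤ) * ((g' j : ℤ) + (h' j : ℤ))) := by
    rw [← Finset.sum_sub_distrib, ← Finset.sum_sub_distrib]
    exact Finset.sum_congr rfl fun j _ => by ring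
  have s2 : 2 * (∑ j ∈ Finset.Icc 1 d, (j : ℤ) * (((min (g j) (g' j) : ℕ) : ℤ) +
      ((min (h' j) (h j) : ℕ) : ℤ))) +
        (∑ j ∈ Finset.Icc 1 d, (j : ℤ) * |(g j : ℤ) - (g' j : ℤ)|)
        + (∑ j ∈ Finset.Icc 1 d, (j : ℤ) * |(h' j : ℤ) - (h j : ℤ)|) =
      (∑ j ∈ Finset.Icc 1 d, (j : ℤ) * ((g j : ℤ) + (h j : ℤ))) +
      (∑ j ∈ Finset.Icc 1 d, (j : ℤ) * ((g' j : ℤ) + (h' j : ℤ))) := by
    rw [Finset.mul_sum, ← Finset.sum_add_distrib, ← Finset.sum_add_distrib,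
      ← Finset.sum_add_distrib]
    refine Finset.sum_congr rfl fun j _ => ?_
    have a1 : 2 * ((min (g j) (g' j) : ℕ) : ℤ) + |(g j : ℤ) - (g' j : ℤ)| = (g j : ℤ) + g' j := by
      rcases abs_cases ((g j : ℤ) - (g' j : ℤ)) with ⟨e, _⟩ | ⟨e, _⟩ <;> rw [e] <;> omega
    have a2 : 2 * ((min (h' j) (h j) : ℕ) : ℤ) + |(h' j : ℤ) - (h j : ℤ)| = (h j : ℤ) + h' j := by
      rcases abs_cases ((h' j : ℤ) - (h j : ℤ)) with ⟨e, _⟩ | ⟨e, _⟩ <;> rw [e] <;> omega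
    linear_combination (j : ℤ) * a1 + (j : ℤ) * a2
  have t1 : ((d ^ 2 + ∑ i : Fin d, ((i : ℕ) + 1) * (gF d σ w1 i + gF d σ w3 i) : ℕ) : ℤ) =
      (d : ℤ) ^ 2 + ∑ j ∈ Finset.Icc 1 d, (j : ℤ) * ((g j : ℤ) + (h j : ℤ)) := by
    have e := sum_Fin d (fun j => j * (g j + h j))
    have e' : ∑ i : Fin d, ((i : ℕ) + 1) * (gF d σ w1 i + gF d σ w3 i) =
        ∑ j ∈ Finset.Icc 1 d, j * (g j + h j) := e
    rw [e']
    push_cast
    rfl
  have t2 : ((d' ^ 2 + ∑ i : Fin d', ((i : ℕ) + 1) * (gF d' σ w2 i + gF d' σ w4 i) : ℕ) : ℤ) =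
      (d' : ℤ) ^ 2 + (∑ j ∈ Finset.Icc 1 d, (j : ℤ) * ((g' j : ℤ) + (h' j : ℤ)) +
        ∑ j ∈ Finset.Ioc d d', (j : ℤ) * ((g' j : ℤ) + (h' j : ℤ))) := by
    have e := sum_Fin d' (fun j => j * (g' j + h' j))
    have e' : ∑ i : Fin d', ((i : ℕ) + 1) * (gF d' σ w2 i + gF d' σ w4 i) =
        ∑ j ∈ Finset.Icc 1 d', j * (g' j + h' j) := e
    rw [e', ← Icc_split hd]
    push_cast
    rfl
  have r1 : d ^ 2 + ∑ i : Fin d, ((i : ℕ) + 1) * (gF d σ w1 i + gF d σ w3 i) = n := by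
    have : ((d ^ 2 + ∑ i : Fin d, ((i : ℕ) + 1) * (gF d σ w1 i + gF d σ w3 i) : ℕ) : ℤ) = n := by
      rw [t1]
      linarith
    exact_mod_cast this
  have r2 : d' ^ 2 + ∑ i : Fin d', ((i : ℕ) + 1) * (gF d' σ w2 i + gF d' σ w4 i) = n := by
    have : ((d' ^ 2 + ∑ i : Fin d', ((i : ℕ) + 1) * (gF d' σ w2 i + gF d' σ w4 i) : ℕ) : ℤ)
        = n := by
      rw [t2]
      linarith
    exact_mod_cast this
  refine ⟨r1, r2, ?_⟩
  refine h2 d d' _ _ _ _ hd ?_ ?_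
  · rw [h3, h3, r1, r2]
  · intro k hk
    have hk' := Finset.mem_Icc.1 hk
    have b1 : ∀ f : ℕ → ℕ, ∑ l : Fin d, ((min ((l : ℕ) + 1) k : ℕ) : ℤ) * (f ((l : ℕ) + 1) : ℤ) =
        ∑ j ∈ Finset.Icc 1 d, ((min j k : ℕ) : ℤ) * (f j : ℤ) := fun f =>
      sum_Fin d (fun j => ((min j k : ℕ) : ℤ) * (f j : ℤ))
    have b2 : ∀ f : ℕ → ℕ, ∑ l : Fin d', ((min ((l : ℕ) + 1) k : ℕ) : ℤ) * (f ((l : ℕ) + 1) : ℤ) =
        ∑ j ∈ Finset.Icc 1 d, ((min j k : ℕ) : ℤ) * (f j : ℤ) +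
          (k : ℤ) * ∑ j ∈ Finset.Ioc d d', (f j : ℤ) := by
      intro f
      rw [sum_Fin d' (fun j => ((min j k : ℕ) : ℤ) * (f j : ℤ)), Icc_split hd]
      congr 1
      rw [Finset.mul_sum]
      refine Finset.sum_congr rfl fun j hj => ?_
      rw [Finset.mem_Ioc] at hj
      rw [min_eq_right (by omega : k ≤ j)]
    have b3 : (k : ℤ) * (((d' : ℤ) - d) + ∑ l ∈ Finset.Ioc d d', (g' l : ℤ)) ≤
        ∑ j ∈ Finset.Icc 1 d, ((min j k : ℕ) : ℤ) * ((g j : ℤ) - (g' j : ℤ)) := by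
      have b4 := c1 k hk
      have e1 : ∀ l, (eD (ps σ (w1, w2)) l : ℝ) = (g' l : ℝ) := by
        intro l
        have := heD l
        exact_mod_cast this
      have e2 : ∑ l ∈ Finset.Ioc d d', (eD (ps σ (w1, w2)) l : ℝ) =
          ∑ l ∈ Finset.Ioc d d', (g' l : ℝ) := Finset.sum_congr rfl fun l _ => e1 l
      have b5 : (k : ℝ) * (((d' : ℝ) - d) + ∑ l ∈ Finset.Ioc d d', (g' l : ℝ)) ≤
          ∑ j ∈ Finset.Icc 1 d, ((min j k : ℕ) : ℝ) * (((g j : ℤ) - (g' j : ℤ) : ℤ) : ℝ) := by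
        rw [← e2]
        exact b4
      exact_mod_cast b5
    have b6 : 0 ≤ ∑ j ∈ Finset.Icc 1 d, ((min j k : ℕ) : ℤ) * ((h' j : ℤ) - (h j : ℤ)) := by
      have b4 := c2 k hk
      have b5 : 0 ≤ ∑ j ∈ Finset.Icc 1 d, ((min j k : ℕ) : ℝ) * (((h' j : ℤ) - (h j : ℤ) : ℤ) : ℝ) :=
        b4
      exact_mod_cast b5
    have b7 : ∑ j ∈ Finset.Icc 1 d, ((min j k : ℕ) : ℤ) * ((g j : ℤ) - (g' j : ℤ)) =
        ∑ j ∈ Finset.Icc 1 d, ((min j k : ℕ) : ℤ) * (g j : ℤ) -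
          ∑ j ∈ Finset.Icc 1 d, ((min j k : ℕ) : ℤ) * (g' j : ℤ) := by
      rw [← Finset.sum_sub_distrib]
      exact Finset.sum_congr rfl fun j _ => by ring
    have b8 : ∑ j ∈ Finset.Icc 1 d, ((min j k : ℕ) : ℤ) * ((h' j : ℤ) - (h j : ℤ)) =
        ∑ j ∈ Finset.Icc 1 d, ((min j k : ℕ) : ℤ) * (h' j : ℤ) -
          ∑ j ∈ Finset.Icc 1 d, ((min j k : ℕ) : ℤ) * (h j : ℤ) := by
      rw [← Finset.sum_sub_distrib]
      exact Finset.sum_congr rfl fun j _ => by ring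
    have k0 : (0 : ℤ) ≤ k := Int.natCast_nonneg k
    have hdd : (d : ℤ) ≤ d' := by exact_mod_cast hd
    constructor
    · show (0 : ℤ) ≤ (k : ℤ) * ((d : ℤ) - d') +
        ∑ l : Fin d, ((min ((l : ℕ) + 1) k : ℕ) : ℤ) * (g ((l : ℕ) + 1) : ℤ)
        - ∑ l : Fin d', ((min ((l : ℕ) + 1) k : ℕ) : ℤ) * (g' ((l : ℕ) + 1) : ℤ)
      rw [b1 g, b2 g']
      rw [b7] at b3
      nlinarith [b3]
    · show (k : ℤ) * ((d : ℤ) - d') +
        ∑ l : Fin d, ((min ((l : ℕ) + 1) k : ℕ) : ℤ) * (h ((l : ℕ) + 1) : ℤ)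
        - ∑ l : Fin d', ((min ((l : ℕ) + 1) k : ℕ) : ℤ) * (h' ((l : ℕ) + 1) : ℤ) ≤ 0
      rw [b1 h, b2 h']
      rw [b8] at b6
      have k1 : 0 ≤ (k : ℤ) * ∑ j ∈ Finset.Ioc d d', (h' j : ℤ) :=
        mul_nonneg k0 (Finset.sum_nonneg fun j _ => Int.natCast_nonneg _)
      have k2 : (k : ℤ) * ((d : ℤ) - d') ≤ 0 :=
        mul_nonpos_of_nonneg_of_nonpos k0 (by linarith)
      linarith

end DLa

/-- **Change of variables in the lower bound.** -/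
theorem gp_dla (h1 : S_Xg) (h2 : S_domsuf) (h3 : S_toPsum) (h4 : S_L3) (h5 : S_geolaw) :
    Pool.Agent.H174.GP.S_DLa := by
  intro d d' n σ hσ hd1 hd
  have hG := DLa.meas_G1 d d' n
  have hx : ∀ y, DepZ d' {x : DLa.XX | (x, y) ∈ DLa.G1 d d' n} := by
    intro y x x' hxx hx
    exact DLa.G1_congr hd hxx (fun _ _ => ⟨rfl, rfl⟩) hx
  have hy : ∀ x, DepZ d' {y : DLa.XX | (x, y) ∈ DLa.G1 d d' n} := by
    intro x y y' hyy hy
    exact DLa.G1_congr hd (fun _ _ => ⟨rfl, rfl⟩) hyy hy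
  have e1 : Q4 (E1 d d' n σ) = Q4 {q | (DLa.ps σ q.1, DLa.ps σ q.2.swap) ∈ DLa.G1 d d' n} := by
    rw [DLa.E1_eq, DLa.step1 h1 hσ hG hx (DLa.meas_ph σ),
      DLa.step2 h1 hσ hG hy (DLa.meas_ps σ), DLa.step3 hG (DLa.meas_ps σ)]
  have e2 : Q4.real (E1 d d' n σ) =
      Q4.real {q | (DLa.ps σ q.1, DLa.ps σ q.2.swap) ∈ DLa.G1 d d' n} := by
    unfold Measure.real
    rw [e1]
  rw [e2]
  refine measureReal_mono ?_ (measure_ne_top _ _)
  intro q hq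
  exact DLa.det h2 h3 hd hq

end Pool.Agent.H174.GP
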