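import Pool.Agent.H174.GP.StH
import Pool.Agent.H331.GP174.L5

/-!
# Project GP (helper174): concentration function of Laplace sums (helper124)
-/

set_option autoImplicit false

open MeasureTheory ProbabilityTheory Finset Filter Topology

namespace Pool.Agent.H174.GP

namespace conc

/-- the integral of `1/(1+N t²)` -/
theorem int_inv {N : ℕ} (hN : 1 ≤ N) :
    Integrable (fun t : ℝ => (1 + (N : ℝ) * t ^ 2)⁻¹) ∧
    ∫ t : ℝ, (1 + (N : ℝ) * t ^ 2)⁻¹ = Real.pi / Real.sqrt N := by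
  have hN0 : (0 : ℝ) < N := by exact_mod_cast hN
  have hs : 0 < Real.sqrt N := Real.sqrt_pos.2 hN0
  have e : (fun t : ℝ => (1 + (N : ℝ) * t ^ 2)⁻¹) =
      fun t : ℝ => (fun u : ℝ => (1 + u ^ 2)⁻¹) (Real.sqrt N * t) := by
    funext t
    simp only
    rw [mul_pow, Real.sq_sqrt hN0.le]
  constructor
  · rw [e]
    exact integrable_inv_one_add_sq.comp_mul_left' hs.ne'
  · rw [e, Measure.integral_comp_mul_left (fun u : ℝ => (1 + u ^ 2)⁻¹) (Real.sqrt N),
      integral_univ_inv_one_add_sq, abs_of_pos (inv_pos.2 hs), smul_eq_mul]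
    field_simp

/-- A bound for the concentration function by the characteristic function. -/
theorem conc_one (ν : Measure ℝ) [IsProbabilityMeasure ν] {N : ℕ} (hN : 1 ≤ N)
    (h : ∀ t : ℝ, ‖charFun ν t‖ ≤ (1 + (N : ℝ) * t ^ 2)⁻¹) (c : ℝ) :
    ν.real {y | |y - c| ≤ 1 / 2} ≤ 4 / Real.sqrt N := by
  have hN0 : (0 : ℝ) < N := by exact_mod_cast hN
  have hs : 0 < Real.sqrt N := Real.sqrt_pos.2 hN0
  set γ : Measure ℝ := gaussianReal 0 1 with hγ
  obtain ⟨hi, hv⟩ := int_inv hN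
  -- the Gaussian transform
  have hg : ∀ x : ℝ, ((Real.exp (-(x ^ 2 / 2)) : ℝ) : ℂ) =
      ∫ t : ℝ, Complex.exp ((x : ℂ) * t * Complex.I) ∂γ := by
    intro x
    rw [← charFun_apply_real, hγ, charFun_gaussianReal]
    push_cast
    congr 1
    simp
  have hmeas : Measurable (fun p : ℝ × ℝ => Complex.exp (((p.1 - c : ℝ) : ℂ) * p.2 * Complex.I)) := by
    fun_prop
  have hprod : Integrable (Function.uncurry fun y t : ℝ =>
      Complex.exp (((y - c : ℝ) : ℂ) * t * Complex.I)) (ν.prod γ) := by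
    refine Integrable.of_bound (C := 1) hmeas.aestronglyMeasurable
      (Filter.Eventually.of_forall fun p => ?_)
    show ‖Complex.exp (((p.1 - c : ℝ) : ℂ) * p.2 * Complex.I)‖ ≤ 1
    rw [← Complex.ofReal_mul, Complex.norm_exp_ofReal_mul_I]
  have hswap : ((∫ y, Real.exp (-((y - c) ^ 2 / 2)) ∂ν : ℝ) : ℂ) =
      ∫ t : ℝ, ∫ y : ℝ, Complex.exp (((y - c : ℝ) : ℂ) * t * Complex.I) ∂ν ∂γ := by
    rw [← integral_integral_swap hprod, ← integral_complex_ofReal]
    refine integral_congr_ae (Filter.Eventually.of_forall fun y => ?_)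
    simp only
    rw [hg (y - c)]
  have hinner : ∀ t : ℝ, ‖∫ y : ℝ, Complex.exp (((y - c : ℝ) : ℂ) * t * Complex.I) ∂ν‖ ≤
      (1 + (N : ℝ) * t ^ 2)⁻¹ := by
    intro t
    have e : ∀ y : ℝ, Complex.exp (((y - c : ℝ) : ℂ) * t * Complex.I) =
        Complex.exp (((-(c * t) : ℝ) : ℂ) * Complex.I) *
          Complex.exp ((t : ℂ) * y * Complex.I) := by
      intro y
      rw [← Complex.exp_add]
      congr 1
      push_cast
      ring
    have e2 : ∫ y : ℝ, Complex.exp (((y - c : ℝ) : ℂ) * t * Complex.I) ∂ν =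
        Complex.exp (((-(c * t) : ℝ) : ℂ) * Complex.I) * charFun ν t := by
      rw [charFun_apply_real, ← integral_const_mul]
      exact integral_congr_ae (Filter.Eventually.of_forall fun y => e y)
    rw [e2, norm_mul, Complex.norm_exp_ofReal_mul_I, one_mul]
    exact h t
  have hpi : Real.pi / 2 ≤ Real.sqrt (2 * Real.pi) := by
    refine Real.le_sqrt_of_sq_le ?_
    nlinarith [Real.pi_pos, Real.pi_le_four]
  have hpdf : ∀ t : ℝ, gaussianPDFReal 0 1 t ≤ 2 / Real.pi := by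
    intro t
    rw [gaussianPDFReal_def]
    have h1 : Real.exp (-(t - 0) ^ 2 / (2 * ((1 : NNReal) : ℝ))) ≤ 1 := by
      rw [Real.exp_le_one_iff]
      have : (0 : ℝ) ≤ (t - 0) ^ 2 := sq_nonneg _
      simp only [NNReal.coe_one, mul_one]
      linarith
    have h2 : (Real.sqrt (2 * Real.pi * ((1 : NNReal) : ℝ)))⁻¹ ≤ 2 / Real.pi := by
      rw [NNReal.coe_one, mul_one]
      have h3 : (0 : ℝ) < Real.pi / 2 := by positivity
      have h4 := inv_anti₀ h3 hpi
      rwa [inv_div] at h4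
    calc (Real.sqrt (2 * Real.pi * ((1 : NNReal) : ℝ)))⁻¹ *
          Real.exp (-(t - 0) ^ 2 / (2 * ((1 : NNReal) : ℝ)))
        ≤ (Real.sqrt (2 * Real.pi * ((1 : NNReal) : ℝ)))⁻¹ * 1 :=
          mul_le_mul_of_nonneg_left h1 (by positivity)
      _ ≤ 2 / Real.pi := by rw [mul_one]; exact h2
  have hpos : ∀ t : ℝ, 0 ≤ (1 + (N : ℝ) * t ^ 2)⁻¹ := fun t => by positivity
  have hint : ∫ t, (1 + (N : ℝ) * t ^ 2)⁻¹ ∂γ ≤ 2 / Real.sqrt N := by
    rw [hγ, integral_gaussianReal_eq_integral_smul one_ne_zero]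
    calc ∫ t, gaussianPDFReal 0 1 t • (1 + (N : ℝ) * t ^ 2)⁻¹
        ≤ ∫ t, (2 / Real.pi) * (1 + (N : ℝ) * t ^ 2)⁻¹ := by
          refine integral_mono_of_nonneg (Filter.Eventually.of_forall fun t => ?_)
            (hi.const_mul _) (Filter.Eventually.of_forall fun t => ?_)
          · exact mul_nonneg (gaussianPDFReal_nonneg _ _ _) (hpos t)
          · exact mul_le_mul_of_nonneg_right (hpdf t) (hpos t)
      _ = 2 / Real.sqrt N := by
          rw [integral_const_mul, hv]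
          field_simp
  have hmain : ∫ y, Real.exp (-((y - c) ^ 2 / 2)) ∂ν ≤ 2 / Real.sqrt N := by
    have h0 : 0 ≤ ∫ y, Real.exp (-((y - c) ^ 2 / 2)) ∂ν :=
      integral_nonneg fun y => (Real.exp_pos _).le
    have h1 : ∫ y, Real.exp (-((y - c) ^ 2 / 2)) ∂ν =
        ‖((∫ y, Real.exp (-((y - c) ^ 2 / 2)) ∂ν : ℝ) : ℂ)‖ := by
      rw [Complex.norm_real, Real.norm_of_nonneg h0]
    rw [h1, hswap]
    refine (norm_integral_le_integral_norm _).trans (le_trans ?_ hint)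
    refine integral_mono_of_nonneg (Filter.Eventually.of_forall fun t => norm_nonneg _) ?_
      (Filter.Eventually.of_forall hinner)
    refine Integrable.of_bound (C := 1) (by fun_prop) (Filter.Eventually.of_forall fun t => ?_)
    rw [Real.norm_of_nonneg (hpos t)]
    refine inv_le_one_of_one_le₀ ?_
    nlinarith [mul_nonneg hN0.le (sq_nonneg t)]
  have hmk : Real.exp (-(1 / 8)) * ν.real {y | Real.exp (-(1 / 8)) ≤
      Real.exp (-((y - c) ^ 2 / 2))} ≤ ∫ y, Real.exp (-((y - c) ^ 2 / 2)) ∂ν := by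
    refine mul_meas_ge_le_integral_of_nonneg (Filter.Eventually.of_forall fun y =>
      (Real.exp_pos _).le) ?_ _
    refine Integrable.of_bound (C := 1) (by fun_prop) (Filter.Eventually.of_forall fun y => ?_)
    rw [Real.norm_of_nonneg (Real.exp_pos _).le, Real.exp_le_one_iff]
    have := sq_nonneg (y - c)
    linarith
  have hsub : ν.real {y | |y - c| ≤ 1 / 2} ≤ ν.real {y | Real.exp (-(1 / 8)) ≤
      Real.exp (-((y - c) ^ 2 / 2))} := by
    refine measureReal_mono ?_ (measure_ne_top _ _)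
    intro y hy
    have hy' : |y - c| ≤ 1 / 2 := hy
    show Real.exp (-(1 / 8)) ≤ Real.exp (-((y - c) ^ 2 / 2))
    rw [Real.exp_le_exp]
    have h2 : (y - c) ^ 2 ≤ (1 / 2) ^ 2 := by
      rw [← sq_abs]
      exact pow_le_pow_left₀ (abs_nonneg _) hy' 2
    linarith
  have he : 1 / 2 ≤ Real.exp (-(1 / 8)) := by
    have := Real.add_one_le_exp (-(1 / 8 : ℝ))
    linarith
  have hν0 : 0 ≤ ν.real {y | |y - c| ≤ 1 / 2} := measureReal_nonneg
  have hfin : (1 / 2) * ν.real {y | |y - c| ≤ 1 / 2} ≤ 2 / Real.sqrt N :=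
    calc (1 / 2) * ν.real {y | |y - c| ≤ 1 / 2}
        ≤ Real.exp (-(1 / 8)) * ν.real {y | |y - c| ≤ 1 / 2} :=
          mul_le_mul_of_nonneg_right he hν0
      _ ≤ Real.exp (-(1 / 8)) * ν.real {y | Real.exp (-(1 / 8)) ≤
            Real.exp (-((y - c) ^ 2 / 2))} :=
          mul_le_mul_of_nonneg_left hsub (Real.exp_pos _).le
      _ ≤ _ := hmk.trans hmain
  have e4 : 4 / Real.sqrt N = 2 * (2 / Real.sqrt N) := by ring
  rw [e4]
  linarith

/-- The law of the sum. -/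
theorem char_sum (a N : ℕ) (t : ℝ) :
    charFun (PP.map (fun ω : ℕ → ℝ => ∑ i ∈ Finset.Ioc a (a + N), ω i)) t =
      (1 / (1 + (t : ℂ) ^ 2)) ^ N := by
  have hind : iIndepFun (fun (i : ℕ) (ω : ℕ → ℝ) => ω i) PP := by
    unfold PP
    exact iIndepFun_infinitePi (X := fun _ x => x) (fun _ => measurable_id)
  have h1 := iIndepFun.charFun_map_fun_finsetSum_eq_prod (s := Finset.Ioc a (a + N))
    (X := fun (i : ℕ) (ω : ℕ → ℝ) => ω i) (P := PP)
    (fun i _ => (measurable_pi_apply i).aemeasurable) (hind.restrict _)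
  rw [h1, Finset.prod_apply]
  have h2 : ∀ i ∈ Finset.Ioc a (a + N),
      charFun (PP.map (fun ω : ℕ → ℝ => ω i)) t = 1 / (1 + (t : ℂ) ^ 2) := by
    intro i _
    have h3 : PP.map (fun ω : ℕ → ℝ => ω i) = lap := by
      unfold PP
      exact (measurePreserving_eval_infinitePi (fun _ : ℕ => lap) i).map_eq
    rw [h3]
    exact Pool.Agent.H331.GP174.gp_l5 t
  rw [Finset.prod_congr rfl h2, Finset.prod_const, Nat.card_Ioc, Nat.add_sub_cancel_left]

theorem norm_char (a : ℕ) {N : ℕ} (t : ℝ) :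
    ‖charFun (PP.map (fun ω : ℕ → ℝ => ∑ i ∈ Finset.Ioc a (a + N), ω i)) t‖ ≤
      (1 + (N : ℝ) * t ^ 2)⁻¹ := by
  rw [char_sum]
  have e : (1 / (1 + (t : ℂ) ^ 2)) ^ N = (((1 + t ^ 2)⁻¹ ^ N : ℝ) : ℂ) := by
    push_cast
    rw [one_div]
  rw [e, Complex.norm_real, Real.norm_of_nonneg (by positivity), inv_pow]
  refine inv_anti₀ (by positivity) ?_
  exact one_add_mul_le_pow (by nlinarith [sq_nonneg t]) N

end conc

/-- **Concentration function.** -/
theorem gp_conc (h1 : S_L3) : Pool.Agent.H174.GP.S_conc := by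
  refine ⟨4, by norm_num, fun a N y l hN hl => ?_⟩
  have hN0 : (0 : ℝ) < N := by exact_mod_cast hN
  have hs : 0 < Real.sqrt N := Real.sqrt_pos.2 hN0
  have hmY : Measurable (fun ω : ℕ → ℝ => ∑ i ∈ Finset.Ioc a (a + N), ω i) :=
    Finset.measurable_sum _ fun i _ => measurable_pi_apply i
  set ν : Measure ℝ := PP.map (fun ω : ℕ → ℝ => ∑ i ∈ Finset.Ioc a (a + N), ω i) with hν
  have hprob : IsProbabilityMeasure ν := Measure.isProbabilityMeasure_map hmY.aemeasurable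
  have hY : ∀ ω : ℕ → ℝ, S ω (a + N) - S ω a = ∑ i ∈ Finset.Ioc a (a + N), ω i := by
    intro ω
    unfold S
    have h2 : Finset.Icc 1 (a + N) = Finset.Icc 1 a ∪ Finset.Ioc a (a + N) := by
      ext j
      simp only [Finset.mem_Icc, Finset.mem_union, Finset.mem_Ioc]
      omega
    have h3 : Disjoint (Finset.Icc 1 a) (Finset.Ioc a (a + N)) := by
      rw [Finset.disjoint_left]
      intro j hj hj'
      rw [Finset.mem_Icc] at hj
      rw [Finset.mem_Ioc] at hj'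
      omega
    rw [h2, Finset.sum_union h3]
    ring
  have hone : ∀ c : ℝ, PP.real {ω : ℕ → ℝ | |∑ i ∈ Finset.Ioc a (a + N), ω i - c| ≤ 1 / 2} ≤
      4 / Real.sqrt N := by
    intro c
    have h4 := conc.conc_one ν hN (fun t => conc.norm_char a t) c
    have hms : MeasurableSet {x : ℝ | |x - c| ≤ 1 / 2} :=
      measurableSet_le (by fun_prop) measurable_const
    have h5 : ν.real {x : ℝ | |x - c| ≤ 1 / 2} =
        PP.real {ω : ℕ → ℝ | |∑ i ∈ Finset.Ioc a (a + N), ω i - c| ≤ 1 / 2} := by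
      rw [hν]
      exact map_measureReal_apply hmY hms
    rwa [h5] at h4
  have hcov : {ω : ℕ → ℝ | y ≤ S ω (a + N) - S ω a ∧ S ω (a + N) - S ω a ≤ y + l} ⊆
      ⋃ k ∈ Finset.range (⌊l⌋₊ + 1),
        {ω : ℕ → ℝ | |∑ i ∈ Finset.Ioc a (a + N), ω i - (y + k + 1 / 2)| ≤ 1 / 2} := by
    rintro ω ⟨h4, h5⟩
    rw [hY] at h4 h5
    set Y := ∑ i ∈ Finset.Ioc a (a + N), ω i with hYd
    have h6 : 0 ≤ Y - y := by linarith
    have h7 := Nat.floor_le h6
    have h8 := Nat.lt_floor_add_one (Y - y)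
    refine Set.mem_iUnion₂.2 ⟨⌊Y - y⌋₊, ?_, ?_⟩
    · rw [Finset.mem_range]
      have : ⌊Y - y⌋₊ ≤ ⌊l⌋₊ := Nat.floor_le_floor (by linarith)
      omega
    · show |Y - (y + (⌊Y - y⌋₊ : ℝ) + 1 / 2)| ≤ 1 / 2
      rw [abs_le]
      constructor <;> linarith
  calc PP.real {ω : ℕ → ℝ | y ≤ S ω (a + N) - S ω a ∧ S ω (a + N) - S ω a ≤ y + l}
      ≤ PP.real (⋃ k ∈ Finset.range (⌊l⌋₊ + 1),
        {ω : ℕ → ℝ | |∑ i ∈ Finset.Ioc a (a + N), ω i - (y + k + 1 / 2)| ≤ 1 / 2}) :=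
        measureReal_mono hcov (measure_ne_top _ _)
    _ ≤ ∑ k ∈ Finset.range (⌊l⌋₊ + 1),
        PP.real {ω : ℕ → ℝ | |∑ i ∈ Finset.Ioc a (a + N), ω i - (y + k + 1 / 2)| ≤ 1 / 2} :=
        measureReal_biUnion_finset_le _ _
    _ ≤ ∑ k ∈ Finset.range (⌊l⌋₊ + 1), 4 / Real.sqrt N :=
        Finset.sum_le_sum fun k _ => hone _
    _ = ((⌊l⌋₊ : ℝ) + 1) * (4 / Real.sqrt N) := by
        rw [Finset.sum_const, Finset.card_range, nsmul_eq_mul]
        push_cast
        ring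
    _ ≤ (l + 1) * (4 / Real.sqrt N) := by
        refine mul_le_mul_of_nonneg_right ?_ (by positivity)
        have := Nat.floor_le hl
        linarith
    _ = 4 * (1 + l) / Real.sqrt N := by ring

end Pool.Agent.H174.GP
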